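import Pool.Agent.H354.BG.Stm

set_option autoImplicit false

/-! Project BG, tasks VALC and REU: the value map of codes is computable, the word problem is
recursively enumerable. -/

namespace Pool.Agent.H349.BG.VALC

open Pool.Agent.H354.BG
open Pool.Agent.H482R3.EA (W inv ev PP xx evF cond1 cond2 Syl gOf Sys St Near InD Adm Act)
open Pool.Agent.H482R3.EB (tot wp alt rels AR gR TR Tame Symm alt_length)

variable (D : Dat)

theorem p_inv : Primrec (fun u : W (Fin D.n) => inv u) := by
  unfold inv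
  exact Primrec.list_reverse.comp (Primrec.list_map Primrec.id
    ((Primrec.pair (Primrec.fst.comp Primrec.snd)
      (Primrec.not.comp (Primrec.snd.comp Primrec.snd))).to₂))

theorem p_flt (U : Finset (Fin D.r)) : Primrec (fun u : W (Fin D.n) => flt D U u) := by
  have h1 : Primrec (fun a : Fin D.n × Bool => decide (D.β a.1 ∈ U)) := Primrec.dom_finite _
  have h2 : PrimrecPred (fun a : Fin D.n × Bool => D.β a.1 ∈ U) := h1.primrecPred
  exact Primrec.listFilter h2

theorem p_rep {S : Type} [Primcodable S] :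
    Primrec₂ (fun (n : ℕ) (x : S) => List.replicate n x) := by
  have h : Primrec (fun p : ℕ × S => (List.range p.1).map (fun _ => p.2)) :=
    Primrec.list_map (Primrec.list_range.comp Primrec.fst) ((Primrec.snd.comp Primrec.fst).to₂)
  have h2 : Primrec (fun p : ℕ × S => List.replicate p.1 p.2) := h.of_eq (fun p => by simp)
  exact h2.to₂

theorem p_letF : Primrec (fun p : (ℕ × Fin D.n × Fin D.n) × (ℕ × Bool) =>
    (letF D p.1.1 p.1.2.1 p.1.2.2 p.2 : W (Fin D.n))) := by
  have hm : Primrec (fun p : (ℕ × Fin D.n × Fin D.n) × (ℕ × Bool) => p.2.1 % p.1.1) :=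
    Primrec.nat_mod.comp (Primrec.fst.comp Primrec.snd) (Primrec.fst.comp Primrec.fst)
  have hw : Primrec (fun p : (ℕ × Fin D.n × Fin D.n) × (ℕ × Bool) => p.1.2.2) :=
    Primrec.snd.comp (Primrec.snd.comp Primrec.fst)
  have hv : Primrec (fun p : (ℕ × Fin D.n × Fin D.n) × (ℕ × Bool) => p.1.2.1) :=
    Primrec.fst.comp (Primrec.snd.comp Primrec.fst)
  have h1 := p_rep.comp hm (Primrec.pair hw (Primrec.const true))
  have h3 := p_rep.comp hm (Primrec.pair hw (Primrec.const false))
  have h2 := Primrec.list_cons.comp (Primrec.pair hv (Primrec.snd.comp Primrec.snd))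
    (Primrec.const ([] : List (Fin D.n × Bool)))
  exact Primrec.list_append.comp (Primrec.list_append.comp h1 h2) h3

variable (U : Finset (Fin D.r)) (b : Fin D.r)

theorem p_1 : Primrec (fun x : W (Fin D.n) × Fin D.n × Bool × ℕ =>
    (flt D U x.1 ++ List.replicate x.2.2.2 (x.2.1, x.2.2.1) ++
      inv (flt D U x.1) : W (Fin D.n))) := by
  have h1 : Primrec (fun x : W (Fin D.n) × Fin D.n × Bool × ℕ => flt D U x.1) :=
    (p_flt D U).comp Primrec.fst
  have h2 : Primrec (fun x : W (Fin D.n) × Fin D.n × Bool × ℕ =>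
      List.replicate x.2.2.2 (x.2.1, x.2.2.1)) :=
    p_rep.comp (Primrec.snd.comp (Primrec.snd.comp Primrec.snd))
      (Primrec.pair (Primrec.fst.comp Primrec.snd)
        (Primrec.fst.comp (Primrec.snd.comp Primrec.snd)))
  exact Primrec.list_append.comp (Primrec.list_append.comp h1 h2) ((p_inv D).comp h1)

theorem p_2 : Primrec (fun x : W (Fin D.n) × W (Fin D.n) =>
    (flt D U x.1 ++ flt D {b} x.2 ++ inv (flt D U x.1) : W (Fin D.n))) := by
  have h1 : Primrec (fun x : W (Fin D.n) × W (Fin D.n) => flt D U x.1) :=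
    (p_flt D U).comp Primrec.fst
  have h2 : Primrec (fun x : W (Fin D.n) × W (Fin D.n) => flt D {b} x.2) :=
    (p_flt D {b}).comp Primrec.snd
  exact Primrec.list_append.comp (Primrec.list_append.comp h1 h2) ((p_inv D).comp h1)

theorem p_3 : Primrec (fun x : W (Fin D.n) × Fin D.n × Fin D.n × W ℕ =>
    (flt D U x.1 ++ x.2.2.2.flatMap (letF D (kk D x.2.1 x.2.2.1) x.2.1 x.2.2.1) ++
      inv (flt D U x.1) : W (Fin D.n))) := by
  have h1 : Primrec (fun x : W (Fin D.n) × Fin D.n × Fin D.n × W ℕ => flt D U x.1) :=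
    (p_flt D U).comp Primrec.fst
  have hc : Primrec (fun q : Fin D.n × Fin D.n => kk D q.1 q.2) := Primrec.dom_finite _
  have hv : Primrec (fun x : W (Fin D.n) × Fin D.n × Fin D.n × W ℕ => x.2.1) :=
    Primrec.fst.comp Primrec.snd
  have hw : Primrec (fun x : W (Fin D.n) × Fin D.n × Fin D.n × W ℕ => x.2.2.1) :=
    Primrec.fst.comp (Primrec.snd.comp Primrec.snd)
  have hk : Primrec (fun x : W (Fin D.n) × Fin D.n × Fin D.n × W ℕ =>
      ((kk D x.2.1 x.2.2.1, x.2.1, x.2.2.1) : ℕ × Fin D.n × Fin D.n)) :=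
    Primrec.pair (hc.comp (Primrec.pair hv hw)) (Primrec.pair hv hw)
  have h2 : Primrec (fun x : W (Fin D.n) × Fin D.n × Fin D.n × W ℕ =>
      x.2.2.2.flatMap (letF D (kk D x.2.1 x.2.2.1) x.2.1 x.2.2.1)) :=
    Primrec.list_flatMap (Primrec.snd.comp (Primrec.snd.comp Primrec.snd))
      (((p_letF D).comp (Primrec.pair (hk.comp Primrec.fst) Primrec.snd)).to₂)
  exact Primrec.list_append.comp (Primrec.list_append.comp h1 h2) ((p_inv D).comp h1)

theorem p_valS : Primrec (fun s : Sy D => valS D U b s) := by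
  have h := Primrec.sumCasesOn (α := Sy D) Primrec.id
    ((p_1 D U).comp Primrec.snd).to₂
    ((Primrec.sumCasesOn Primrec.snd ((p_2 D U b).comp Primrec.snd).to₂
      ((p_3 D U).comp Primrec.snd).to₂)).to₂
  refine h.of_eq (fun s => ?_)
  rcases s with s | s | s
  · rfl
  · rfl
  · rfl

theorem t_VALC : S_VALC := by
  intro D U b
  exact (Primrec.list_flatMap Primrec.id (((p_valS D U b).comp Primrec.snd).to₂)).to_comp

theorem fin_rels : (rels D.m).Finite := by
  have h : rels D.m ⊆ Set.range fun p : Fin D.n × Fin D.n =>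
      ((alt p.1 p.2 (D.m p.1 p.2)).map FreeGroup.of).prod *
        (((alt p.2 p.1 (D.m p.1 p.2)).map FreeGroup.of).prod)⁻¹ := by
    rintro r ⟨s, t, _, _, rfl⟩
    exact ⟨(s, t), rfl⟩
  exact (Set.finite_range _).subset h

theorem wp_re : REPred (fun u : W (Fin D.n) => gEl D u = 1) := by
  have hfin := fin_rels D
  obtain ⟨R, hR⟩ : ∃ R : List (W (Fin D.n)), rels D.m = {r | ∃ z ∈ R, r = FreeGroup.mk z} := by
    refine ⟨hfin.toFinset.toList.map FreeGroup.toWord, ?_⟩
    ext r
    constructor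
    · intro hr
      refine ⟨r.toWord, ?_, FreeGroup.mk_toWord.symm⟩
      rw [List.mem_map]
      exact ⟨r, by rw [Finset.mem_toList, Set.Finite.mem_toFinset]; exact hr, rfl⟩
    · rintro ⟨z, hz, rfl⟩
      rw [List.mem_map] at hz
      obtain ⟨r, hr, rfl⟩ := hz
      rw [Finset.mem_toList, Set.Finite.mem_toFinset] at hr
      rw [FreeGroup.mk_toWord]
      exact hr
  have h1 := Pool.Agent.H482R3.EB.Asm.fpre (Fin D.n) inferInstance inferInstance R
  have h2 : ∀ rs : Set (FreeGroup (Fin D.n)), rs = rels D.m →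
      (fun u : W (Fin D.n) =>
        ev (PresentedGroup.of : Fin D.n → PresentedGroup rs) u = 1) =
        (fun u : W (Fin D.n) => gEl D u = 1) := by
    rintro _ rfl
    rfl
  rw [← h2 _ hR.symm]
  exact h1

theorem t_REU : S_REU := by
  intro D U
  have h1 := wp_re D
  have h2 : Computable (fun u : W (Fin D.n) => flt D U u) := (p_flt D U).to_comp
  have h3 : REPred (fun u : W (Fin D.n) => gEl D (flt D U u) = 1) := Partrec.comp h1 h2
  exact h3.of_eq (fun u => by rw [rho_gEl])

end Pool.Agent.H349.BG.VALC
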